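import Mathlib

set_option autoImplicit false

namespace Pool.Agent.Results.MP_405fb9_co.Exists

open Finset

/-- `D` is a dominating set of the subgraph of `G` induced on `W`. -/
def Dom {n : ℕ} (G : SimpleGraph (Fin n)) (W D : Finset (Fin n)) : Prop :=
  D ⊆ W ∧ ∀ v ∈ W, v ∉ D → ∃ u ∈ D, G.Adj v u

/-- the domination number of the subgraph induced on `W`. -/
noncomputable def gamma {n : ℕ} (G : SimpleGraph (Fin n)) (W : Finset (Fin n)) : ℕ :=
  sInf {k | ∃ D, Dom G W D ∧ D.card = k}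

/-- `D` is a minimum dominating set of the subgraph induced on `W`. -/
def GSet {n : ℕ} (G : SimpleGraph (Fin n)) (W D : Finset (Fin n)) : Prop :=
  Dom G W D ∧ D.card = gamma G W

def HypoUD {n : ℕ} (G : SimpleGraph (Fin n)) : Prop :=
  (∃ D D', D ≠ D' ∧ GSet G univ D ∧ GSet G univ D') ∧ ∀ v, ∃! D, GSet G (univ.erase v) D

def Bicritical {n : ℕ} (G : SimpleGraph (Fin n)) : Prop :=
  ∀ S : Finset (Fin n), S.card = 2 → gamma G (univ \ S) < gamma G univ

def E : List (Fin 8 × Fin 8) :=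
  [(0,5),(0,6),(0,7),(1,4),(1,6),(1,7),(2,3),(2,5),(2,7),(3,4),(3,6),(4,5)]

def G : SimpleGraph (Fin 8) where
  Adj u v := (u, v) ∈ E ∨ (v, u) ∈ E
  symm := ⟨fun _ _ h => h.symm⟩
  loopless := ⟨by decide⟩

instance : DecidableRel G.Adj := fun u v => inferInstanceAs (Decidable ((u, v) ∈ E ∨ (v, u) ∈ E))

instance (W D : Finset (Fin 8)) : Decidable (Dom G W D) := by unfold Dom; infer_instance

lemma gamma_eq (W : Finset (Fin 8)) (k : ℕ) (h1 : ∃ D, Dom G W D ∧ D.card = k)
    (h2 : ∀ D, Dom G W D → k ≤ D.card) : gamma G W = k :=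
  IsLeast.csInf_eq ⟨h1, by rintro _ ⟨D, hD, rfl⟩; exact h2 D hD⟩

lemma g3 : gamma G univ = 3 := gamma_eq _ _ (by decide +kernel) (by decide +kernel)

lemma g2 (v : Fin 8) : gamma G (univ.erase v) = 2 :=
  gamma_eq _ _ (by revert v; decide +kernel) (by revert v; decide +kernel)

theorem result : ∃ (n : ℕ) (H : SimpleGraph (Fin n)), 3 ≤ n ∧ Bicritical H ∧ HypoUD H := by
  refine ⟨8, G, by norm_num, fun S hS => ?_, ?_, fun v => ?_⟩
  · rw [g3]
    have : ∀ S : Finset (Fin 8), S.card = 2 → ∃ D, Dom G (univ \ S) D ∧ D.card = 2 := by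
      decide +kernel
    exact lt_of_le_of_lt (Nat.sInf_le (this S hS)) (by norm_num)
  · simp only [GSet, g3]
    decide +kernel
  · simp only [GSet, g2, ExistsUnique]
    revert v
    decide +kernel

end Pool.Agent.Results.MP_405fb9_co.Exists
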